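import Mathlib
import Pool.Agent.CAB.FinalDefs

/-!
# Tate's conjecture for families of Jacobians of `C_ab` curves with `r` marked points
-/

namespace Pool.Agent.Results.MP_9faec4_nt.CabCurves

open Polynomial Pool.Agent.CAB

/-- **Jacobians of `C_ab` curves with `r` marked points over every finitely generated base of
characteristic zero.** -/
theorem result (R₀ : Type) [CommRing R₀] [IsDomain R₀] [CharZero R₀] [Algebra.FiniteType ℤ R₀]
    (a b k : ℕ) (hco : Nat.Coprime a b) (ha : 2 ≤ a) (hab : a < b) (hk : 4 ≤ k) (hkb : k ≤ b)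
    (P₀ : R₀[X][X]) (hP : IsCab a b P₀) (Δ : MvPolynomial (Fin k) R₀) (hΔ : NonzeroMod Δ)
    (hs : Smooth (family P₀ k Δ).P) (r : ℕ) :
    HasClassRank ((family P₀ k Δ).power r)
      (r * (numFactors (diagP (algebraMap R₀[X][X] (FractionRing R₀[X][X])) P₀) - 1)) ∧
    ∀ d : ℝ, 0 ≤ d →
      (∀ σ : ℝ, d < σ → Summable fun m : MaximalSpectrum R₀ => (qy m : ℝ) ^ (-σ)) →
      (∃ H : ℂ → ℂ, DifferentiableOn ℂ H {s : ℂ | d + r + k - 1 / 4 < s.re} ∧
        ∀ s : ℂ, d + r + k + 1 / 2 < s.re →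
          HasProd (fun m : MaximalSpectrum ((family P₀ k Δ).power r).R =>
            localFactor ((family P₀ k Δ).power r).P m s)
            (Complex.exp (H s) * (((∏' m : MaximalSpectrum (RZ P₀),
              (1 - (qy m : ℂ) ^ (-(s - (r + k) + 2)))⁻¹) /
              ∏' m : MaximalSpectrum R₀, (1 - (qy m : ℂ) ^ (-(s - (r + k))))⁻¹) ^ r)⁻¹)) ∧
      ∀ (ε : ℝ) (W : ℂ → ℂ), 0 < ε → ε ≤ 1 / 4 → MeromorphicOn W {s : ℂ | d - ε < s.re} →
        (∀ s : ℂ, d < s.re → ∀ z w : ℂ,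
          HasProd (fun m : MaximalSpectrum R₀ => (1 - (qy m : ℂ) ^ (-s))⁻¹) z →
          HasProd (fun m : MaximalSpectrum (RZ P₀) => (1 - (qy m : ℂ) ^ (-(s + 2)))⁻¹) w →
          W s = w / z) →
        ∃ Φ : ℂ → ℂ, MeromorphicOn Φ {s : ℂ | d + r + k - ε < s.re} ∧
          (∀ s : ℂ, d + r + k + 1 / 2 < s.re →
            HasProd (fun m : MaximalSpectrum ((family P₀ k Δ).power r).R =>
              localFactor ((family P₀ k Δ).power r).P m s) (Φ s)) ∧
          meromorphicOrderAt Φ ((d : ℂ) + r + k) = -(r * meromorphicOrderAt W (d : ℂ)) := by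
  obtain ⟨M, hM⟩ := momHyp_four hP.monic hP.deg (by omega) hk hΔ.gf r
  obtain ⟨h, hirr, hprod⟩ := exists_factors (diagP_monic
    (algebraMap R₀[X][X] (FractionRing R₀[X][X])) (by omega) hP)
  refine ⟨hasClassRank_of (family_alg ⟨hco, ha, by omega⟩ hab (by omega) hkb hP hΔ.ne_zero hs
    (frc_of_isFrac R₀[X][X] (FractionRing R₀[X][X])) hirr hprod r), ?_⟩
  intro d hd0 hd
  have hd' : ∀ σ : ℝ, d < σ →
      Summable fun x : Nat.Primes × ℕ => (Hhelper85.hN R₀ x : ℝ) * Hhelper85.pr σ x :=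
    fun σ hσ => Hhelper85.summable_hN (by linarith) (hd σ hσ)
  refine ⟨cab_factor hM hd' hd0, ?_⟩
  intro ε W hε hε1 hWm hW
  exact cab_cont hM hd' hd0 hε hε1 hWm hW

end Pool.Agent.Results.MP_9faec4_nt.CabCurves
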