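import Mathlib
import Pool.Agent.SZp.Final

/-!
# Tate's conjecture for families of Jacobians of `C_ab` curves with `r` marked points over every
finitely generated base of characteristic `p`
-/

namespace Pool.Agent.Retired.MP_9faec4_nt.CabCurvesCharP

open Polynomial Pool.Agent.CAB Pool.Agent.SZ

/-- The number of monic irreducible factors of `P₀(x, Y) - P₀(x, y)` as a polynomial in `Y` over
`K₀(x, y)`, `K₀` the field of fractions of `R₀`. -/
noncomputable def factors {R₀ : Type} [CommRing R₀] [IsDomain R₀] (P₀ : R₀[X][X]) : ℕ :=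
  numFactors (diagP (algebraMap R₀[X][X] (FractionRing R₀[X][X])) P₀)

/-- **Jacobians of `C_ab` curves with `r` marked points over every finitely generated base of
characteristic `p`: rank and order agree.** The first part says when suitable `Δ` exist. -/
theorem result (p : ℕ) [Fact p.Prime] (R₀ : Type) [CommRing R₀] [IsDomain R₀]
    [Algebra (ZMod p) R₀] [Algebra.FiniteType (ZMod p) R₀]
    (δ : ℕ) (hδ : Algebra.trdeg (ZMod p) R₀ = δ) (a b k : ℕ) (hco : Nat.Coprime a b) (ha : 2 ≤ a)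
    (hk : 2 ≤ k) (hkb : k ≤ b) (P₀ : R₀[X][X]) (hP : IsCab a b P₀) :
    ((∃ Δ : MvPolynomial (Fin k) R₀, Δ ≠ 0 ∧ Smooth (family P₀ k Δ).P) ↔ derivative P₀ ≠ 0) ∧
    ∀ Δ : MvPolynomial (Fin k) R₀, Δ ≠ 0 → Smooth (family P₀ k Δ).P → ∀ r : ℕ,
      HasClassRank ((family P₀ k Δ).power r) (r * (factors P₀ - 1)) ∧
      ∃ ε : ℝ, 0 < ε ∧ EulerOrder ((family P₀ k Δ).power r) (δ + r + k - ε)
        (δ + r + k + 1 / 2) (δ + r + k) (r * (factors P₀ - 1)) :=
  ⟨⟨fun ⟨_, hΔ, hs⟩ => SZp.derivative_ne_zero ⟨hco, ha, by omega⟩ hkb hP hΔ hs,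
    fun hd => SZp.exists_delta hk hd⟩,
    fun _ hΔ hs r => SZp.cab_thm hδ ⟨hco, ha, by omega⟩ hk hkb hP hΔ hs r⟩

end Pool.Agent.Retired.MP_9faec4_nt.CabCurvesCharP
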