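import Mathlib
import Pool.Agent.SZ.TateAll

/-!
# Tate's conjecture for families of Jacobians of `C_ab` curves with `r` marked points over every
finitely generated base of characteristic zero
-/

namespace Pool.Agent.Results.MP_9faec4_nt.CabCurvesFG

open Polynomial Pool.Agent.CAB Pool.Agent.SZ

/-- **Jacobians of `C_ab` curves with `r` marked points over every finitely generated base of
characteristic zero: rank and order agree.** The first part says that suitable `Δ` exist. -/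
theorem result (R₀ : Type) [CommRing R₀] [IsDomain R₀] [CharZero R₀] [Algebra.FiniteType ℤ R₀]
    (δ : ℕ) (hδ : Algebra.trdeg ℤ R₀ = δ) (a b k : ℕ) (hco : Nat.Coprime a b) (ha : 2 ≤ a)
    (hk : 2 ≤ k) (hkb : k ≤ b) (P₀ : R₀[X][X]) (hP : IsCab a b P₀) :
    (∃ Δ : MvPolynomial (Fin k) R₀, Δ ≠ 0 ∧ Smooth (family P₀ k Δ).P) ∧
    ∀ Δ : MvPolynomial (Fin k) R₀, Δ ≠ 0 → Smooth (family P₀ k Δ).P → ∀ r : ℕ,
      HasClassRank ((family P₀ k Δ).power r) (r * (diagFactors P₀ - 1)) ∧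
      ∃ ε : ℝ, 0 < ε ∧ EulerOrder ((family P₀ k Δ).power r) (δ + 1 + r + k - ε)
        (δ + 1 + r + k + 1 / 2) (δ + 1 + r + k) (r * (diagFactors P₀ - 1)) :=
  ⟨exists_delta0 (by omega) (by omega) hkb hP, fun _ hΔ hs r =>
    cab_all hδ ⟨hco, ha, by omega⟩ hk hkb hP hΔ hs r⟩

end Pool.Agent.Results.MP_9faec4_nt.CabCurvesFG
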