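import Mathlib
import Pool.Agent.CAB.FinalDefs

/-!
# Tate's conjecture for families of Jacobians of `C_ab` curves with `r` marked points
-/

namespace Pool.Agent.Results.MP_9faec4_nt.CabUniversal

open Polynomial Pool.Agent.CAB

/-- **Jacobians of `C_ab` curves with `r` marked points, unconditionally over
`ℤ[1/N][t_1, ..., t_l]`.** The first part says that the required `Δ` exist when `a b` divides
`N`. -/
theorem result (N l a b k : ℕ) (hN : N ≠ 0) (hco : Nat.Coprime a b) (ha : 2 ≤ a) (hab : a < b)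
    (hk : 4 ≤ k) (hkb : k ≤ b) (P₁ : (HypTate.PolyZN N l)[X][X]) (hP : IsCab a b P₁) :
    (a * b ∣ N → ∃ Δ : MvPolynomial (Fin k) (HypTate.PolyZN N l)[X], NonzeroMod Δ ∧
      Smooth (family (addTY P₁) k Δ).P) ∧
    ∀ Δ : MvPolynomial (Fin k) (HypTate.PolyZN N l)[X], NonzeroMod Δ →
      Smooth (family (addTY P₁) k Δ).P → ∀ r : ℕ,
        HasClassRank ((family (addTY P₁) k Δ).power r) r ∧
        EulerOrder ((family (addTY P₁) k Δ).power r) (l + 1 + 1 + r + k - 1 / 4)
          (l + 1 + 1 + r + k + 1 / 2) (l + 1 + 1 + r + k) r := by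
  have : NeZero N := ⟨hN⟩
  have i1 : IsDomain (HypTate.PolyZN N l) := HypJac.domain_PolyZN hN l
  have i2 : CharZero (HypTate.PolyZN N l) := HypJac.charZero_PolyZN hN l
  have hn : Num a b := ⟨hco, ha, by omega⟩
  have hP' := hP.addTY hn
  refine ⟨?_, ?_⟩
  · intro habN
    have h1 : IsUnit ((a : ℕ) : (HypTate.PolyZN N l)[X]) := by
      have := (isUnit_of_dvd (N := N) ((dvd_mul_right a b).trans habN) l).map
        (C : HypTate.PolyZN N l →+* (HypTate.PolyZN N l)[X])
      rwa [map_natCast] at this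
    have h2 : IsUnit ((b : ℕ) : (HypTate.PolyZN N l)[X]) := by
      have := (isUnit_of_dvd (N := N) ((dvd_mul_left b a).trans habN) l).map
        (C : HypTate.PolyZN N l →+* (HypTate.PolyZN N l)[X])
      rwa [map_natCast] at this
    obtain ⟨Δ, h3, h4⟩ := exists_delta (by omega : 1 ≤ a) (by omega : 1 ≤ k) hkb hP' h1 h2
    exact ⟨Δ, fun F _ _ φ => h4 F φ, h3⟩
  · intro Δ hΔ hs r
    obtain ⟨M, hM⟩ := momHyp_four hP'.monic hP'.deg (by omega) hk hΔ.gf r
    exact ⟨hasClassRank_of (family_alg_t hn hab (by omega) hkb hP hΔ.ne_zero hs r),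
      addTY_ZN hM⟩

end Pool.Agent.Results.MP_9faec4_nt.CabUniversal
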