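import Mathlib
import Pool.Agent.Pen.PenAlg
import Pool.Agent.PenA.Order

/-!
# Tate's conjecture for linear pencils of hyperelliptic curves with `r` marked points
-/

namespace Pool.Agent.Results.MP_9faec4_nt.LinearPencils

open Polynomial Pool.Agent.CAB Pool.Agent.Pen

/-- **The curves `y ^ 2 = f(x) + t g(x)` with `r` marked points, over every finitely generated base of
characteristic zero.** -/
theorem result (R₀ : Type) [CommRing R₀] [IsDomain R₀] [CharZero R₀] [Algebra.FiniteType ℤ R₀]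
    (δ : ℕ) (hδ : Algebra.trdeg ℤ R₀ = δ) (n : ℕ) (hn : Odd n) (hn3 : 3 ≤ n) (f g : R₀[X])
    (hf : f.Monic) (hdeg : f.natDegree = n) (hg : g ≠ 0) (hgn : g.natDegree < n) :
    ((∀ p : (FractionRing R₀)[X], p ^ 2 ∣ fr f → p ^ 2 ∣ fr g → IsUnit p) →
      ∃ Δ : R₀[X], Δ ≠ 0 ∧ Smooth (pencil f g Δ).P) ∧
    ∀ Δ : R₀[X], Δ ≠ 0 → Smooth (pencil f g Δ).P → ∀ r : ℕ,
      HasRank ((pencil f g Δ).power r) (penRank f g r) ∧
      ∃ ε : ℝ, 0 < ε ∧ EulerOrder ((pencil f g Δ).power r) (δ + 1 + r + 1 - ε)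
        (δ + 1 + r + 1 + 1 / 2) (δ + 1 + r + 1) (penRank f g r) := by
  subst hdeg
  exact ⟨fun h => exists_delta hf hg hgn h, fun Δ hΔ hs r =>
    ⟨pencil_alg hf hn hn3 hg hgn hΔ hs r, PenA.pen_order hδ hn hf rfl hg hgn hΔ r⟩⟩

end Pool.Agent.Results.MP_9faec4_nt.LinearPencils
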