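import Mathlib
import Pool.Agent.PenU.All

/-!
# Tate's conjecture for linear pencils of hyperelliptic curves with `r` marked points over every
finitely generated field of every characteristic
-/

namespace Pool.Agent.Results.MP_9faec4_nt.LinearPencilsAll

open Polynomial Pool.Agent.CAB Pool.Agent.Pen Pool.Agent.LSU

/-- **The curves `y ^ 2 = f(x) + t g(x)` with `r` marked points, over every finitely generated base,
of characteristic zero or `p`: rank and order agree.** The first two parts say when suitable `Δ`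
exist; the inequality says that the difference in `penRank` is not truncated. -/
theorem result (R₀ : Type) [CommRing R₀] [IsDomain R₀] [Algebra.FiniteType ℤ R₀]
    (d : ℕ) (hd : HasDim R₀ d) (n : ℕ) (hn : Odd n) (hn3 : 3 ≤ n) (f g : R₀[X])
    (hf : f.Monic) (hdeg : f.natDegree = n) (hg : g ≠ 0) (hgn : g.natDegree < n) :
    ((∃ Δ : R₀[X], Δ ≠ 0 ∧ Smooth (pencil f g Δ).P) ↔
      (2 : R₀) ≠ 0 ∧ ((f.map C + C X * g.map C : R₀[X][X]).map
        (algebraMap R₀[X] (FractionRing R₀[X]))).Separable) ∧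
    (CharZero R₀ → (∀ p : (FractionRing R₀)[X], p ^ 2 ∣ fr f → p ^ 2 ∣ fr g → IsUnit p) →
      ∃ Δ : R₀[X], Δ ≠ 0 ∧ Smooth (pencil f g Δ).P) ∧
    sqConst (fr g) ≤ split (corr f g) (twoG g) ∧
    ∀ Δ : R₀[X], Δ ≠ 0 → Smooth (pencil f g Δ).P → ∀ r : ℕ,
      HasRank ((pencil f g Δ).power r) (penRank f g r) ∧
      ∃ ε : ℝ, 0 < ε ∧ EulerOrder ((pencil f g Δ).power r) (d + r + 1 - ε)
        (d + r + 1 + 1 / 2) (d + r + 1) (penRank f g r) :=
  PenU.pen_all R₀ d hd n hn hn3 f g hf hdeg hg hgn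

end Pool.Agent.Results.MP_9faec4_nt.LinearPencilsAll
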