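import Mathlib
import Pool.Agent.LS.Ineq
import Pool.Agent.LS.Delta
import Pool.Agent.LSA.Order

/-!
# Tate's conjecture for linear systems of `C_ab` curves with `r` marked points over every finitely
generated base of characteristic zero
-/

namespace Pool.Agent.Results.MP_9faec4_nt.LinearSystems

open Polynomial Pool.Agent.CAB Pool.Agent.Pen Pool.Agent.LS Pool.Agent.LSA

/-- **All linear systems `P₀ + t_1 Q_1 + ... + t_k Q_k` of `C_ab` curves with `r` marked points,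
over every finitely generated base of characteristic zero: rank and order agree.** The first part
says that suitable `Δ` exist if not all curves of the system are singular at a common point. -/
theorem result (R₀ : Type) [CommRing R₀] [IsDomain R₀] [CharZero R₀] [Algebra.FiniteType ℤ R₀]
    (δ : ℕ) (hδ : Algebra.trdeg ℤ R₀ = δ) (a b k : ℕ) (hco : Nat.Coprime a b) (ha : 2 ≤ a)
    (hb : 2 ≤ b) (P₀ : R₀[X][X]) (hP : IsCab a b P₀) (Q : Fin k → R₀[X][X])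
    (hQ : ∀ l, LowWt a b (Q l))
    (hi : ∃ l l', ∀ c d : R₀, C (C c) * Q l = C (C d) * Q l' → c = 0 ∧ d = 0) :
    ((∀ 𝔪 : Ideal (FractionRing R₀)[X][X], 𝔪.IsPrime →
      ∃ G ∈ fr2 '' insert P₀ (Set.range Q), G ∉ 𝔪 ∨ derivative G ∉ 𝔪 ∨ dX G ∉ 𝔪) →
      ∃ Δ : MvPolynomial (Fin k) R₀, Δ ≠ 0 ∧ Smooth (lsys P₀ Q Δ).P) ∧
    ∀ Δ : MvPolynomial (Fin k) R₀, Δ ≠ 0 → Smooth (lsys P₀ Q Δ).P → ∀ r : ℕ,
      HasRank ((lsys P₀ Q Δ).power r) (lsRank P₀ Q r) ∧
      ∃ ε : ℝ, 0 < ε ∧ EulerOrder ((lsys P₀ Q Δ).power r) (δ + 1 + k + r - ε)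
        (δ + 1 + k + r + 1 / 2) (δ + 1 + k + r) (lsRank P₀ Q r) := by
  have hn : Num a b := ⟨hco, ha, hb⟩
  obtain ⟨l₁, l₀, hind⟩ := hi
  have hk : 2 ≤ k := by
    by_contra hk
    have h1 : l₀ = l₁ := by
      have := l₀.2
      have := l₁.2
      exact Fin.ext (by omega)
    subst h1
    exact one_ne_zero (hind 1 1 rfl).1
  refine ⟨fun h => exists_delta_ls hn hP hQ h, fun Δ hΔ hs r => ⟨ls_alg hn hP hQ hind hΔ hs r, ?_⟩⟩
  obtain ⟨h0, h1, h01⟩ := ls_ineq hn hP hQ hind hΔ hs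
  exact ls_order hδ hn hk hP hQ ⟨l₁, l₀, hind⟩ hΔ hs h0 h1 h01 r

end Pool.Agent.Results.MP_9faec4_nt.LinearSystems
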