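import Mathlib
import Pool.Agent.LSU.All

/-!
# Tate's conjecture for linear systems of `C_ab` curves with `r` marked points over every finitely
generated field of every characteristic
-/

namespace Pool.Agent.Results.MP_9faec4_nt.LinearSystemsAll

open Polynomial Pool.Agent.CAB Pool.Agent.Pen Pool.Agent.LS Pool.Agent.LSU

/-- **All linear systems `P₀ + t_1 Q_1 + ... + t_k Q_k` of `C_ab` curves with `r` marked points,
over every finitely generated base, of characteristic zero or `p`: rank and order agree.** The first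
two parts say when suitable `Δ` exist; the inequalities say that the differences in `lsRank` are not
truncated. -/
theorem result (R₀ : Type) [CommRing R₀] [IsDomain R₀] [Algebra.FiniteType ℤ R₀]
    (d : ℕ) (hd : HasDim R₀ d) (a b k : ℕ) (hco : Nat.Coprime a b) (ha : 2 ≤ a)
    (hb : 2 ≤ b) (P₀ : R₀[X][X]) (hP : IsCab a b P₀) (Q : Fin k → R₀[X][X])
    (hQ : ∀ l, LowWt a b (Q l))
    (hi : ∃ l l', ∀ c d : R₀, C (C c) * Q l = C (C d) * Q l' → c = 0 ∧ d = 0) :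
    ((∃ Δ : MvPolynomial (Fin k) R₀, Δ ≠ 0 ∧ Smooth (lsys P₀ Q Δ).P) ↔
      Smooth (mapP (algebraMap (MvPolynomial (Fin k) R₀)
        (FractionRing (MvPolynomial (Fin k) R₀))) (lsP P₀ Q))) ∧
    (CharZero R₀ → (∀ 𝔪 : Ideal (FractionRing R₀)[X][X], 𝔪.IsPrime →
      ∃ G ∈ fr2 '' insert P₀ (Set.range Q), G ∉ 𝔪 ∨ derivative G ∉ 𝔪 ∨ dX G ∉ 𝔪) →
      ∃ Δ : MvPolynomial (Fin k) R₀, Δ ≠ 0 ∧ Smooth (lsys P₀ Q Δ).P) ∧
    ∀ Δ : MvPolynomial (Fin k) R₀, Δ ≠ 0 → Smooth (lsys P₀ Q Δ).P →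
      numComp (fr2 '' Set.range Q) ≤ numBase (fr2 '' insert P₀ (Set.range Q)) ∧
      numComp (minors (Set.range Q)) ≤ numBase (minors (insert P₀ (Set.range Q))) ∧
      rho0 P₀ Q ≤ rho1 P₀ Q ∧ ∀ r : ℕ,
      HasRank ((lsys P₀ Q Δ).power r) (lsRank P₀ Q r) ∧
      ∃ ε : ℝ, 0 < ε ∧ EulerOrder ((lsys P₀ Q Δ).power r) (d + k + r - ε)
        (d + k + r + 1 / 2) (d + k + r) (lsRank P₀ Q r) :=
  ls_all R₀ d hd a b k hco ha hb P₀ hP Q hQ hi

end Pool.Agent.Results.MP_9faec4_nt.LinearSystemsAll
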