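import Mathlib
import Pool.Agent.SZ.OneTate

/-!
# Tate's conjecture for one-parameter families of hyperelliptic Jacobians with `r` marked points
-/

namespace Pool.Agent.Results.MP_9faec4_nt.OneParameter

open Polynomial Pool.Agent.CAB Pool.Agent.SZ

/-- **The curves `x² = f₀(y) + t` with `r` marked points, over every finitely generated base of
characteristic zero.** -/
theorem result (R₀ : Type) [CommRing R₀] [IsDomain R₀] [CharZero R₀] [Algebra.FiniteType ℤ R₀]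
    (δ : ℕ) (hδ : Algebra.trdeg ℤ R₀ = δ) (n : ℕ) (hn : Odd n) (hn3 : 3 ≤ n) (f₀ : R₀[X])
    (hf : f₀.Monic) (hdeg : f₀.natDegree = n) :
    (∃ Δ : MvPolynomial (Fin 1) R₀, Δ ≠ 0 ∧ Smooth (family (hyp f₀) 1 Δ).P) ∧
    ∀ Δ : MvPolynomial (Fin 1) R₀, Δ ≠ 0 → Smooth (family (hyp f₀) 1 Δ).P → ∀ r : ℕ,
      HasClassRank ((family (hyp f₀) 1 Δ).power r) (r * (numFactors (diffP f₀) - 1)) ∧
      ∃ ε : ℝ, 0 < ε ∧ EulerOrder ((family (hyp f₀) 1 Δ).power r) (δ + 1 + r + 1 - ε)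
        (δ + 1 + r + 1 + 1 / 2) (δ + 1 + r + 1) (r * (numFactors (diffP f₀) - 1)) :=
  ⟨exists_delta1 hn3 hf hdeg, fun _ hΔ hs r => one_thm hδ hn hn3 hf hdeg hΔ hs r⟩

end Pool.Agent.Results.MP_9faec4_nt.OneParameter
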