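import Mathlib
import Pool.Agent.MX.AFin

/-!
# Tate's conjecture over the function fields of fibre products of hyperelliptic pencils

`C_i` is the pencil `y ^ 2 = f_i(x) + t g_i(x)`, `i = 0, ..., m`, over a finitely generated base of
characteristic zero or `p`; the field `K` is the function field of the fibre product of
`C_1, ..., C_m` over the `t`-line and the curve is `C_0`.
-/

namespace Pool.Agent.Results.MP_9faec4_nt.PencilProducts

open Polynomial Pool.Agent.CAB Pool.Agent.Pen Pool.Agent.LSU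

/-- **The curves `y ^ 2 = f_0(x) + t g_0(x)` over the function fields of the fibre products of `m`
arbitrary curves `y ^ 2 = f_i(x) + t g_i(x)`, over every finitely generated base: rank and order
agree.** The first two parts say when suitable `Δ` exist; the inequality says that the difference in
`pairInc` is not truncated. -/
theorem result (R₀ : Type) [CommRing R₀] [IsDomain R₀] [Algebra.FiniteType ℤ R₀]
    (d : ℕ) (hd : HasDim R₀ d) (m : ℕ) (f g : Fin (m + 1) → R₀[X]) (hf : ∀ i, (f i).Monic)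
    (hn : ∀ i, Odd (f i).natDegree) (hn3 : ∀ i, 3 ≤ (f i).natDegree) (hg : ∀ i, g i ≠ 0)
    (hgn : ∀ i, (g i).natDegree < (f i).natDegree) :
    ((∃ Δ : R₀[X], Δ ≠ 0 ∧ ∀ i, Smooth (penP (f i) (g i) Δ)) ↔
      (2 : R₀) ≠ 0 ∧ ∀ i, (((f i).map C + C X * (g i).map C : R₀[X][X]).map
        (algebraMap R₀[X] (FractionRing R₀[X]))).Separable) ∧
    (CharZero R₀ → (∀ i, ∀ p : (FractionRing R₀)[X], p ^ 2 ∣ fr (f i) → p ^ 2 ∣ fr (g i) →
      IsUnit p) → ∃ Δ : R₀[X], Δ ≠ 0 ∧ ∀ i, Smooth (penP (f i) (g i) Δ)) ∧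
    ∀ Δ : R₀[X], Δ ≠ 0 → (∀ i, Smooth (penP (f i) (g i) Δ)) →
      (∀ i : Fin m, sqPair (fr (g 0)) (fr (g i.succ)) ≤
        split (corr2 (f 0) (g 0) (f i.succ) (g i.succ)) (twoG2 (g 0) (g i.succ))) ∧
      HasRank (PolyRing.fib m (pencil (f 0) (g 0) Δ) (fun i => penP (f i.succ) (g i.succ) Δ))
        (split (fr (g 0)) (fr (f 0)) +
          ∑ i : Fin m, pairInc (f 0) (g 0) (f i.succ) (g i.succ)) ∧
      ∃ ε : ℝ, 0 < ε ∧ EulerOrder (PolyRing.fib m (pencil (f 0) (g 0) Δ)
        (fun i => penP (f i.succ) (g i.succ) Δ)) (d + m + 1 - ε) (d + m + 1 + 1 / 2)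
        (d + m + 1) (split (fr (g 0)) (fr (f 0)) +
          ∑ i : Fin m, pairInc (f 0) (g 0) (f i.succ) (g i.succ)) :=
  Pool.Agent.MX.pencil_products R₀ d hd m f g hf hn hn3 hg hgn

end Pool.Agent.Results.MP_9faec4_nt.PencilProducts
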