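import Mathlib
import Pool.Agent.TRIP.Final

/-!
# Tate's conjecture for families of Jacobians of plane curves with several points at infinity, with
`r` marked points, over every finitely generated base of characteristic zero

`P₀ = y ^ e + c_{e-1}(x) y ^ (e-1) + ... + c_0(x)`, `deg c_j ≤ q (e - j)`; for `q = 1` these are the
plane curves of degree `e` not meeting `(0 : 1 : 0)`, for `e = 2` the hyperelliptic curves of even
degree `2 q`.
-/

namespace Pool.Agent.Results.MP_9faec4_nt.SeveralPlaces

open Polynomial Pool.Agent.CAB Pool.Agent.SZ Pool.Agent.TRI Pool.Agent.TRIA Pool.Agent.TRIP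

/-- **Jacobians of curves with several points at infinity over every finitely generated base of
characteristic zero: rank and order agree.** The divisor class group of the function field of the
curve over `K` is `ℤ ^ (n + 1)`, so `Pic⁰` has rank `n = r (N - 1) + (h - 1)`, which is the order of
the Euler product. The first part says that suitable `Δ` exist. -/
theorem result (R₀ : Type) [CommRing R₀] [IsDomain R₀] [CharZero R₀] [Algebra.FiniteType ℤ R₀]
    (δ : ℕ) (hδ : Algebra.trdeg ℤ R₀ = δ) (d : Dat) (P₀ : R₀[X][X]) (hP : IsTri d P₀)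
    (hT : (top d P₀).Separable) :
    (∃ Δ : MvPolynomial (Fin 2) R₀, Δ ≠ 0 ∧ Smooth (family P₀ 2 Δ).P) ∧
    ∀ Δ : MvPolynomial (Fin 2) R₀, Δ ≠ 0 → Smooth (family P₀ 2 Δ).P → ∀ r : ℕ,
      HasPicRank ((family P₀ 2 Δ).power r) (r * (diagFactors P₀ - 1) + topFactors d P₀) ∧
      ∃ ε : ℝ, 0 < ε ∧ EulerOrderInf d ((family P₀ 2 Δ).power r) (δ + 1 + r + 2 - ε)
        (δ + 1 + r + 2 + 1 / 2) (δ + 1 + r + 2)
        (r * (diagFactors P₀ - 1) + (topFactors d P₀ - 1)) := by
  have hd : derivative P₀ ≠ 0 := by
    intro h0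
    have h1 := congrArg (fun p : R₀[X][X] => p.coeff (d.e - 1)) h0
    have he := d.he
    simp only [coeff_derivative, coeff_zero] at h1
    have h2 : d.e - 1 + 1 = P₀.natDegree := by rw [hP.deg]; omega
    rw [h2, hP.monic.coeff_natDegree, one_mul] at h1
    have h3 : ((d.e - 1 : ℕ) : R₀[X]) + 1 = ((d.e : ℕ) : R₀[X]) := by
      rw [← Nat.cast_add_one]
      congr 1
      omega
    rw [h3] at h1
    have h4 : d.e = 0 := by exact_mod_cast h1
    omega
  exact ⟨Pool.Agent.SZp.exists_delta le_rfl hd, fun _ hΔ hs r => tri_final hδ hP hT hΔ hs r⟩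

end Pool.Agent.Results.MP_9faec4_nt.SeveralPlaces
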