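import Mathlib
import Pool.Agent.TRM.Fin

/-!
# Tate's conjecture for Jacobians of curves with several points at infinity over the function fields
of fibre products of different such curves

`P_i = y ^ e + c_{e-1}(x) y ^ (e-1) + ... + c_0(x)`, `deg c_j ≤ q (e - j)`, with `q`, `e` depending on
`i`; for `q = 1` these are the plane curves of degree `e` not meeting `(0 : 1 : 0)`, for `e = 2` the
hyperelliptic curves of even degree `2 q`. `C_i` is the curve `P_i + u_0 + u_1 x = 0`, `i = 0, ..., m`,
over a finitely generated base of characteristic zero or `p`; the field `K` is the function field of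
the fibre product of `C_1, ..., C_m` over the `u`-space and the curve is `C_0`.
-/

namespace Pool.Agent.Results.MP_9faec4_nt.SeveralPlacesProducts

open Polynomial Pool.Agent.CAB Pool.Agent.TRI Pool.Agent.TRIA Pool.Agent.TRIP Pool.Agent.TRM
open Pool.Agent.LSU

/-- **Curves with several points at infinity: rank and order agree over the function fields of all
fibre products.** The divisor class group of the function field of `C_0` over `K` has rank `n + 1`, so
`Pic⁰` has rank `n = ∑ (N_i - 1) + (h - 1)`, which is the order of the Euler product. The first part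
says that suitable `Δ` exist; the inequalities say that no difference is truncated. -/
theorem result (R₀ : Type) [CommRing R₀] [IsDomain R₀] [Algebra.FiniteType ℤ R₀]
    (D : ℕ) (hD : HasDim R₀ D) (m : ℕ) (d : Fin (m + 1) → Dat)
    (P : Fin (m + 1) → R₀[X][X]) (hP : ∀ i, IsTri (d i) (P i))
    (hT : ∀ i, (top (d i) (P i)).Separable) :
    (∃ Δ : MvPolynomial (Fin 2) R₀, Δ ≠ 0 ∧ ∀ i, Smooth (family (P i) 2 Δ).P) ∧
    ∀ Δ : MvPolynomial (Fin 2) R₀, Δ ≠ 0 → (∀ i, Smooth (family (P i) 2 Δ).P) →
      (1 ≤ topFactors (d 0) (P 0) ∧ ∀ i : Fin m, 1 ≤ pairFactors (P 0) (P i.succ)) ∧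
      HasPicRat (fibFam P Δ) (pairSum P + topFactors (d 0) (P 0)) ∧
      ∃ ε : ℝ, 0 < ε ∧ EulerOrderInf (d 0) (fibFam P Δ) (D + m + 2 - ε) (D + m + 2 + 1 / 2)
        (D + m + 2) (pairSum P + (topFactors (d 0) (P 0) - 1)) :=
  Pool.Agent.TRM.trm_final R₀ D hD m d P hP hT

end Pool.Agent.Results.MP_9faec4_nt.SeveralPlacesProducts
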