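import Mathlib
import Pool.Agent.TQ.Fin

/-!
# Tate's conjecture over the function fields of symmetric powers and of universal Jacobians: curves with
several points at infinity

`C_i` is the curve `P_i + u_0 + u_1 x = 0`, `i = 0, ..., m`, over a finitely generated base of
characteristic zero or `p`; the points at infinity are the zeros of the top form. The marked point number
`j = 0, ..., r - 1` lies on the curve number `c j + 1`; `Γ` is any group of permutations of the marked
points which preserves the curves. The field `K` is the function field of the quotient by `Γ` of the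
fibre product of the affine `C_(c j + 1)` over the `u`-plane and the curve is `C_0`.
-/

namespace Pool.Agent.Results.MP_9faec4_nt.SeveralPlacesQuotients

open Polynomial Pool.Agent.CAB Pool.Agent.TRI Pool.Agent.TRIA Pool.Agent.TRIP Pool.Agent.TRM
open Pool.Agent.TQ

/-- **Curves with several points at infinity over the function fields of all quotients of fibre
products of different such curves by permutations of the marked points: rank and order agree.** -/
theorem result (R₀ : Type) [CommRing R₀] [IsDomain R₀] [Algebra.FiniteType ℤ R₀]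
    (D : ℕ) (hD : Pool.Agent.LSU.HasDim R₀ D) (m : ℕ) (d : Fin (m + 1) → Dat)
    (P : Fin (m + 1) → R₀[X][X]) (hP : ∀ i, IsTri (d i) (P i))
    (hT : ∀ i, (top (d i) (P i)).Separable) :
    (∃ Δ : MvPolynomial (Fin 2) R₀, Δ ≠ 0 ∧ ∀ i, Smooth (family (P i) 2 Δ).P) ∧
    ∀ Δ : MvPolynomial (Fin 2) R₀, Δ ≠ 0 → (∀ i, Smooth (family (P i) 2 Δ).P) →
      (1 ≤ topFactors (d 0) (P 0) ∧ ∀ i : Fin m, 1 ≤ pairFactors (P 0) (P i.succ)) ∧
      ∀ (r : ℕ) (c : Fin r → Fin m) (Γ : Subgroup (Equiv.Perm (Fin r)))
        (hΓ : ∀ σ ∈ Γ, ∀ j, c (σ j) = c j) (δ : (triQuo P Δ c Γ hΓ).R), δ ≠ 0 →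
        HasPicRat ((triQuo P Δ c Γ hΓ).loc δ) (triRank P c Γ + topFactors (d 0) (P 0)) ∧
        ∃ ε : ℝ, 0 < ε ∧ EulerOrderInf (d 0) ((triQuo P Δ c Γ hΓ).loc δ) (D + r + 2 - ε)
          (D + r + 2 + 1 / 2) (D + r + 2) (triRank P c Γ + (topFactors (d 0) (P 0) - 1)) :=
  Pool.Agent.TQ.tri_quotients R₀ D hD m d P hP hT

end Pool.Agent.Results.MP_9faec4_nt.SeveralPlacesQuotients
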