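import Mathlib
import Pool.Agent.CAB.FinalDefs

/-!
# Tate's conjecture for families of superelliptic Jacobians with `r` marked points
-/

namespace Pool.Agent.Results.MP_9faec4_nt.SuperellipticQ

open Polynomial Pool.Agent.CAB

/-- **Superelliptic Jacobians with `r` marked points over `ℤ[1/N][t_1, ..., t_l]`.** The first part
says that the required `Δ` exist when `a b` divides `N`. -/
theorem result (N l a b k : ℕ) (hN : N ≠ 0) (haN : a ∣ N) (hco : Nat.Coprime a b) (ha : 2 ≤ a)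
    (hk : 2 ≤ k) (hkb : k ≤ b) (f₀ : (HypTate.PolyZN N l)[X]) (hf : f₀.Monic)
    (hdeg : f₀.natDegree = b) :
    (b ∣ N → ∃ Δ, GoodSuper a f₀ k Δ) ∧
    ∀ Δ, GoodSuper a f₀ k Δ → ∀ r : ℕ,
      HasClassRank ((superFamily a f₀ k Δ).power r) (r * (a.divisors.card - 1)) ∧
      EulerOrder ((superFamily a f₀ k Δ).power r) (l + 1 + r + k - 1 / 4)
        (l + 1 + r + k + 1 / 2) (l + 1 + r + k) (r * (a.divisors.card - 1)) := by
  have : NeZero N := ⟨hN⟩
  have i1 : IsDomain (HypTate.PolyZN N l) := HypJac.domain_PolyZN hN l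
  have i2 : CharZero (HypTate.PolyZN N l) := HypJac.charZero_PolyZN hN l
  refine ⟨?_, ?_⟩
  · intro hbN
    obtain ⟨Δ, h1, h2⟩ := exists_delta (by omega : 1 ≤ a) (by omega : 1 ≤ k) hkb
      (isCab_cyc (by omega) hf hdeg) (isUnit_of_dvd haN l) (isUnit_of_dvd hbN l)
    exact ⟨Δ, fun F _ _ φ => h2 F φ, h1⟩
  · intro Δ hgood r
    have hΔ : NonzeroMod Δ := hgood.1
    have hs : Smooth (family (X ^ a - C f₀) k Δ).P := hgood.2
    obtain ⟨M, hM⟩ := momHyp_cyc (by omega : 1 ≤ a) hf hdeg hco hk hkb hΔ.gf r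
    refine ⟨?_, ?_⟩
    · obtain ⟨h, hirr, hprod⟩ := exists_factors (F := FractionRing (HypTate.PolyZN N l))
        (p := X ^ a - 1) (monic_X_pow_sub_C 1 (by omega))
      have h1 := hasClassRank_of (family_alg_cyc ⟨hco, ha, by omega⟩ hk hkb hf hdeg
        hΔ.ne_zero hs (frc_of_isFrac _ (FractionRing (HypTate.PolyZN N l))) hirr hprod r)
      have e := numFactors_cyc' hN l (a := a) (by omega)
      rwa [e] at h1
    · obtain ⟨Φ, h1, h2, h3⟩ := cyc_ZN (N := N) (by omega : 1 ≤ a) haN (l := l) hM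
      refine ⟨Φ, h1, h2, ?_⟩
      rw [h3, Finset.card_erase_of_mem (Nat.one_mem_divisors.2 (by omega))]

end Pool.Agent.Results.MP_9faec4_nt.SuperellipticQ
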