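import Mathlib
import Pool.Agent.MX.SFin

/-!
# Tate's conjecture over the function fields of fibre products of members of linear systems

`C_i` is the curve `P_i + t_1 Q_{i1} + ... + t_k Q_{ik} = 0` of type `(a_i, b_i)`, `i = 0, ..., m`, over
a finitely generated base of characteristic zero or `p`; the field `K` is the function field of the
fibre product of `C_1, ..., C_m` over the `t`-space and the curve is `C_0`.
-/

namespace Pool.Agent.Results.MP_9faec4_nt.SystemProducts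

open Polynomial Pool.Agent.CAB Pool.Agent.Pen Pool.Agent.LS Pool.Agent.LSU

/-- **Linear systems of curves of any types with the same parameters: rank and order agree over the
function fields of all fibre products.** The first two parts say when suitable `Δ` exist; the
inequalities say that no difference is truncated. -/
theorem result (R₀ : Type) [CommRing R₀] [IsDomain R₀] [Algebra.FiniteType ℤ R₀]
    (d : ℕ) (hd : HasDim R₀ d) (k m : ℕ) (a b : Fin (m + 1) → ℕ)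
    (hco : ∀ i, Nat.Coprime (a i) (b i)) (ha : ∀ i, 2 ≤ a i) (hb : ∀ i, 2 ≤ b i)
    (P : Fin (m + 1) → R₀[X][X]) (hP : ∀ i, IsCab (a i) (b i) (P i))
    (Q : Fin (m + 1) → Fin k → R₀[X][X]) (hQ : ∀ i l, LowWt (a i) (b i) (Q i l))
    (hQ0 : ∃ l, Q 0 l ≠ 0)
    (hi : ∀ i : Fin m, ∃ l l', minor2 (Q 0 l, Q i.succ l) (Q 0 l', Q i.succ l') ≠ 0) :
    ((∃ Δ : MvPolynomial (Fin k) R₀, Δ ≠ 0 ∧ ∀ i, Smooth (lsQ (P i) (Q i) Δ)) ↔ ∀ i,
      Smooth (mapP (algebraMap (MvPolynomial (Fin k) R₀)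
        (FractionRing (MvPolynomial (Fin k) R₀))) (lsP (P i) (Q i)))) ∧
    (CharZero R₀ → (∀ i, ∀ 𝔪 : Ideal (FractionRing R₀)[X][X], 𝔪.IsPrime →
      ∃ G ∈ fr2 '' insert (P i) (Set.range (Q i)), G ∉ 𝔪 ∨ derivative G ∉ 𝔪 ∨ dX G ∉ 𝔪) →
      ∃ Δ : MvPolynomial (Fin k) R₀, Δ ≠ 0 ∧ ∀ i, Smooth (lsQ (P i) (Q i) Δ)) ∧
    ∀ Δ : MvPolynomial (Fin k) R₀, Δ ≠ 0 → (∀ i, Smooth (lsQ (P i) (Q i) Δ)) →
      (numComp (fr2 '' Set.range (Q 0)) ≤ numBase (fr2 '' insert (P 0) (Set.range (Q 0))) ∧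
      ∀ i : Fin m, numComp (minors2 (Set.range fun l => (Q 0 l, Q i.succ l))) ≤
          numBase (minors2 (insert (P 0, P i.succ) (Set.range fun l => (Q 0 l, Q i.succ l)))) ∧
        rho0 (P 0) (Q 0) ≤ rho2 (P 0) (Q 0) (P i.succ) (Q i.succ)) ∧
      HasRank (PolyRing.fib m (lsys (P 0) (Q 0) Δ) (fun i => lsQ (P i.succ) (Q i.succ) Δ))
        (rho0 (P 0) (Q 0) +
          ∑ i : Fin m, (rho2 (P 0) (Q 0) (P i.succ) (Q i.succ) - rho0 (P 0) (Q 0))) ∧
      ∃ ε : ℝ, 0 < ε ∧ EulerOrder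
        (PolyRing.fib m (lsys (P 0) (Q 0) Δ) (fun i => lsQ (P i.succ) (Q i.succ) Δ))
        (d + k + m - ε) (d + k + m + 1 / 2) (d + k + m) (rho0 (P 0) (Q 0) +
          ∑ i : Fin m, (rho2 (P 0) (Q 0) (P i.succ) (Q i.succ) - rho0 (P 0) (Q 0))) :=
  Pool.Agent.MX.ls_products R₀ d hd k m a b hco ha hb P hP Q hQ hQ0 hi

end Pool.Agent.Results.MP_9faec4_nt.SystemProducts
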